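import Mathlib
import Pool.Agent.Work.MP_d8349b_al.Fails

/-!
MP_d8349b_al, Q1 (own statement beside the frozen S03212): a finite dimensional representation of a
solvable group whose identity ideal is not generated, as a verbal ideal, by any finite subset.
The definitions follow the problem file: right actions, substitution of homomorphisms into
elements of the group algebra, two-sided ideals stable under the endomorphisms of the free group.
-/

set_option autoImplicit false

namespace Pool.Agent.Results.MP_d8349b_al.NoFiniteBasis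

open Pool.Agent.MP_d8349b_al

section Definitions

variable {K : Type} [Field K] {G : Type} [Group G] {V : Type} [AddCommGroup V] [Module K V]

/-- A representation `(V, G)` in the sense of the problem: the group `G` acts on the vector space
`V` on the RIGHT by linear maps. It is a homomorphism from `G` to the opposite of the monoid of
linear maps of `V`; `v ∘ g` is `(ρ g).unop v`, and `v ∘ (g h) = (v ∘ g) ∘ h`. -/
abbrev RightRep (K G V : Type) [Field K] [Group G] [AddCommGroup V] [Module K V] : Type :=
  G →* (Module.End K V)ᵐᵒᵖ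

/-- The group algebra `K F` of the free group on countably many generators. -/
abbrev KF (K : Type) [Field K] : Type := MonoidAlgebra K (FreeGroup ℕ)

/-- The linear extension of the action to the group algebra:
`v ∘ a` is the sum over `g` of `a g • (v ∘ g)`. -/
noncomputable def act (ρ : RightRep K G V) (v : V) (a : MonoidAlgebra K G) : V :=
  a.coeff.sum fun g c => c • (ρ g).unop v

/-- The identities of `(V, G)`: the `u` in `K F` with `v ∘ u^φ = 0` for every `v` and every
homomorphism `φ : F → G` (extended linearly to the group algebras). -/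
def Id (ρ : RightRep K G V) : Set (KF K) :=
  {u | ∀ (v : V) (φ : FreeGroup ℕ →* G), act ρ v (MonoidAlgebra.mapDomain φ u) = 0}

/-- A verbal ideal: a two-sided ideal of `K F` which is mapped into itself by every endomorphism
of `K F` induced by an endomorphism of the group `F`. -/
structure IsVerbal (I : Set (KF K)) : Prop where
  /-- it contains zero -/
  zero_mem : (0 : KF K) ∈ I
  /-- it is closed under addition -/
  add_mem : ∀ u ∈ I, ∀ u' ∈ I, u + u' ∈ I
  /-- it is closed under multiplication on the left by elements of `K F` -/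
  mul_left : ∀ (a : KF K), ∀ u ∈ I, a * u ∈ I
  /-- it is closed under multiplication on the right by elements of `K F` -/
  mul_right : ∀ (a : KF K), ∀ u ∈ I, u * a ∈ I
  /-- it is closed under the endomorphisms of `F` -/
  map_mem : ∀ (σ : FreeGroup ℕ →* FreeGroup ℕ), ∀ u ∈ I, MonoidAlgebra.mapDomain σ u ∈ I

/-- `(V, G)` is finitely based: there is a finite set `S` such that `Id (V, G)` is the smallest
verbal ideal containing `S` (in particular `S` consists of identities). -/
def FinitelyBased (ρ : RightRep K G V) : Prop :=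
  ∃ S : Finset (KF K), IsLeast {I : Set (KF K) | IsVerbal I ∧ (S : Set (KF K)) ⊆ I} (Id ρ)

end Definitions

section Proof

variable {K : Type} [Field K] {G : Type} [Group G] {V : Type} [AddCommGroup V] [Module K V]

theorem act_eq (ρ : RightRep K G V) (v : V) (a : MonoidAlgebra K G) :
    act ρ v a = (MonoidAlgebra.lift K (Module.End K V)ᵐᵒᵖ G ρ a).unop v := by
  rw [MonoidAlgebra.lift_apply]
  unfold act
  simp only [Finsupp.sum, Finset.unop_sum, MulOpposite.unop_smul, LinearMap.sum_apply,
    LinearMap.smul_apply]

theorem mem_Id_iff (ρ : RightRep K G V) (u : KF K) :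
    u ∈ Id ρ ↔ ∀ φ : FreeGroup ℕ →* G,
      MonoidAlgebra.lift K (Module.End K V)ᵐᵒᵖ (FreeGroup ℕ) (ρ.comp φ) u = 0 := by
  have key : ∀ φ : FreeGroup ℕ →* G,
      MonoidAlgebra.lift K (Module.End K V)ᵐᵒᵖ G ρ (MonoidAlgebra.mapDomain φ u) =
        MonoidAlgebra.lift K (Module.End K V)ᵐᵒᵖ (FreeGroup ℕ) (ρ.comp φ) u := by
    intro φ
    have : (MonoidAlgebra.lift K (Module.End K V)ᵐᵒᵖ G ρ).comp
        (MonoidAlgebra.mapDomainAlgHom K K φ) =
        MonoidAlgebra.lift K (Module.End K V)ᵐᵒᵖ (FreeGroup ℕ) (ρ.comp φ) := by
      ext g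
      simp
    exact congrArg (fun f => f u) this
  unfold Id
  simp only [Set.mem_ofPred_eq, act_eq, key]
  constructor
  · intro h φ
    apply MulOpposite.unop_injective
    ext v
    exact h v φ
  · intro h v φ
    rw [h φ]
    rfl

theorem isVerbal_Id (ρ : RightRep K G V) : IsVerbal (Id ρ) where
  zero_mem := by
    rw [mem_Id_iff]
    intro φ
    exact map_zero _
  add_mem := by
    intro u hu u' hu'
    rw [mem_Id_iff] at *
    intro φ
    rw [map_add, hu φ, hu' φ, add_zero]
  mul_left := by
    intro a u hu
    rw [mem_Id_iff] at *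
    intro φ
    rw [map_mul, hu φ, mul_zero]
  mul_right := by
    intro a u hu
    rw [mem_Id_iff] at *
    intro φ
    rw [map_mul, hu φ, zero_mul]
  map_mem := by
    intro σ u hu
    rw [mem_Id_iff] at *
    intro φ
    have : (MonoidAlgebra.lift K (Module.End K V)ᵐᵒᵖ (FreeGroup ℕ) (ρ.comp φ)).comp
        (MonoidAlgebra.mapDomainAlgHom K K σ) =
        MonoidAlgebra.lift K (Module.End K V)ᵐᵒᵖ (FreeGroup ℕ) (ρ.comp (φ.comp σ)) := by
      ext g
      simp
    have h2 := congrArg (fun f => f u) this
    exact h2.trans (hu (φ.comp σ))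

/-- The right representation of a left one: `v ∘ g = g⁻¹ v`. -/
def toRight (ρ : Representation K G V) : RightRep K G V where
  toFun g := MulOpposite.op (ρ g⁻¹)
  map_one' := by simp
  map_mul' g h := by simp

/-- The antipode, as a linear map. -/
noncomputable def anti : KF K →ₗ[K] KF K :=
  (MulOpposite.opLinearEquiv K).symm.toLinearMap ∘ₗ
    (MonoidAlgebra.lift K (KF K)ᵐᵒᵖ (FreeGroup ℕ)
      { toFun := fun g => MulOpposite.op (MonoidAlgebra.single g⁻¹ (1 : K))
        map_one' := by simp [MonoidAlgebra.one_def]
        map_mul' := fun g h => by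
          simp [← MulOpposite.op_mul, MonoidAlgebra.single_mul_single] }).toLinearMap

theorem anti_single (g : FreeGroup ℕ) (c : K) :
    anti (MonoidAlgebra.single g c) = MonoidAlgebra.single g⁻¹ c := by
  unfold anti
  simp

theorem anti_anti (u : KF K) : anti (anti u) = u := by
  have : (anti : KF K →ₗ[K] KF K) ∘ₗ anti = LinearMap.id := by
    refine MonoidAlgebra.lhom_ext' fun g => ?_
    ext
    simp [anti_single]
  exact congrArg (fun f => f u) this

theorem lift_toRight_anti (ρ : Representation K G V) (φ : FreeGroup ℕ →* G) (u : KF K) :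
    MonoidAlgebra.lift K (Module.End K V)ᵐᵒᵖ (FreeGroup ℕ) ((toRight ρ).comp φ) (anti u) =
      MulOpposite.op (Representation.asAlgebraHom (MonoidHom.comp ρ φ) u) := by
  have : (MonoidAlgebra.lift K (Module.End K V)ᵐᵒᵖ (FreeGroup ℕ)
        ((toRight ρ).comp φ)).toLinearMap ∘ₗ anti =
      (MulOpposite.opLinearEquiv K).toLinearMap ∘ₗ
        (Representation.asAlgebraHom (MonoidHom.comp ρ φ)).toLinearMap := by
    refine MonoidAlgebra.lhom_ext' fun g => ?_
    ext
    simp [anti_single, toRight]
  exact congrArg (fun f => f u) this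

theorem anti_mem_Id_iff (ρ : Representation K G V) (u : KF K) :
    anti u ∈ Id (toRight ρ) ↔ ∀ φ : FreeGroup ℕ →* G,
      Representation.asAlgebraHom (MonoidHom.comp ρ φ) u = 0 := by
  rw [mem_Id_iff]
  simp only [lift_toRight_anti, MulOpposite.op_eq_zero_iff]

theorem finrank_VV (K : Type) [Field K] : Module.finrank K (VV K) ≤ 7 := by
  classical
  let b : Option (Fin 3 × ZMod 2) → (WW K → K) := fun o => match o with
    | none => fun _ => 1
    | some (0, k) => fun P => P.1 k
    | some (1, k) => fun P => P.2 k
    | some (2, k) => fun P => P.1 k * P.2 k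
  have hb : genSet K ⊆ Set.range b := by
    rintro f (((hf | ⟨k, rfl⟩) | ⟨k, rfl⟩) | ⟨k, rfl⟩)
    · exact ⟨none, hf.symm⟩
    · exact ⟨some (0, k), rfl⟩
    · exact ⟨some (1, k), rfl⟩
    · exact ⟨some (2, k), rfl⟩
  have h1 : VV K ≤ Submodule.span K (Set.range b) := Submodule.span_mono hb
  have : FiniteDimensional K (Submodule.span K (Set.range b)) :=
    FiniteDimensional.span_of_finite K (Set.finite_range b)
  have h2 := Submodule.finrank_mono h1
  have h3 : (Set.range b).finrank K ≤ Fintype.card (Option (Fin 3 × ZMod 2)) :=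
    finrank_range_le_card b
  have h4 : Fintype.card (Option (Fin 3 × ZMod 2)) = 7 := by
    simp [ZMod.card]
  rw [h4] at h3
  exact h2.trans h3

end Proof

/-- Negative answer to Q1. (1) For every representation the identities form a verbal ideal.
(2) Over every field of characteristic two which has a nonzero element of infinite multiplicative
order there is a representation of a solvable group, of dimension at most seven, which is not
finitely based. (3) There are such fields. -/
theorem result :
    (∀ (K : Type) [Field K] (G : Type) [Group G] (V : Type) [AddCommGroup V] [Module K V]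
      (ρ : RightRep K G V), IsVerbal (Id ρ)) ∧
    (∀ (K : Type) [Field K] [CharP K 2], (∃ t : K, t ≠ 0 ∧ ∀ n : ℕ, 0 < n → t ^ n ≠ 1) →
      ∃ (G : Type) (_ : Group G) (V : Type) (_ : AddCommGroup V) (_ : Module K V)
        (ρ : RightRep K G V), Group.IsSolvable G ∧ FiniteDimensional K V ∧ Module.finrank K V ≤ 7 ∧
          ¬ FinitelyBased ρ) ∧
    (∃ (K : Type) (_ : Field K) (_ : CharP K 2), ∃ t : K, t ≠ 0 ∧ ∀ n : ℕ, 0 < n → t ^ n ≠ 1) := by
  refine ⟨fun K _ G _ V _ _ ρ => isVerbal_Id ρ, ?_, ?_⟩
  · intro K _ _ ⟨t, ht0, ht⟩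
    have hinj : Function.Injective (fun n : ℤ => (Units.mk0 t ht0) ^ n) := by
      rw [injective_zpow_iff_not_isOfFinOrder, isOfFinOrder_iff_pow_eq_one]
      rintro ⟨n, hn, h⟩
      have := congrArg (fun u : Kˣ => (u : K)) h
      simp only [Units.val_pow_eq_pow_val, Units.val_mk0, Units.val_one] at this
      exact ht n hn this
    have hsol : Group.IsSolvable (GG K) := by
      have : Group.IsSolvable (Wr Kˣ) := Wr.isSolvable
      exact Aff.isSolvable
    refine ⟨GG K, inferInstance, VV K, inferInstance, inferInstance,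
      toRight (subRep (VV K) (VV_inv K)), hsol, VV_fd K, finrank_VV K, ?_⟩
    rintro ⟨S, ⟨_, hS⟩, hleast⟩
    classical
    obtain ⟨H, iH, W, iW, iM, τ, h1, u, h2, ψ, h3⟩ :=
      final K (Units.mk0 t ht0) hinj (S.image anti) (by
        intro s hs φ
        obtain ⟨s', hs', rfl⟩ := Finset.mem_image.1 hs
        have h := hS hs'
        rw [← anti_anti s', anti_mem_Id_iff] at h
        exact h φ)
    have h4 : Id (toRight (subRep (VV K) (VV_inv K))) ⊆ Id (toRight τ) := by
      refine hleast ⟨isVerbal_Id _, ?_⟩
      intro s hs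
      rw [← anti_anti s, anti_mem_Id_iff]
      exact h1 _ (Finset.mem_image_of_mem _ hs)
    have h5 : anti u ∈ Id (toRight (subRep (VV K) (VV_inv K))) := (anti_mem_Id_iff _ _).2 h2
    exact h3 ((anti_mem_Id_iff _ _).1 (h4 h5) ψ)
  · obtain ⟨t, ht⟩ := exists_unit
    refine ⟨RatFunc (ZMod 2), inferInstance, inferInstance, (t : RatFunc (ZMod 2)), t.ne_zero, ?_⟩
    intro n hn h
    have h1 : t ^ n = 1 := Units.ext (by simpa using h)
    have h2 := @ht (n : ℤ) 0 (by simpa using h1)
    omega

end Pool.Agent.Results.MP_d8349b_al.NoFiniteBasis
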